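import Mathlib

/-!
# The fields `a₁ E₁ + a₂ E₂` do not minimise the energy on Berger spheres with large `μ`

`S³` is the unit sphere of the quaternions, `H(x) = i x`, `E₁(x) = j x`, `E₂(x) = k x`. For every
`μ > (3+√5)/2` the unit field `V(x) = v₀ H/√μ + v₁ E₁ + v₂ E₂`, where `(v₀, v₁, v₂)` is the Hopf map
`x ↦ x i x̄`, has `‖∇V‖² ≤ (2-√μ)² + μ < 2μ - 4 + 4/μ` at every point.
-/

set_option autoImplicit false

open MeasureTheory

namespace Pool.Agent.Results.MP_627409_gt.NotMinimising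

section General

variable {E : Type} [NormedAddCommGroup E] [InnerProductSpace ℝ E]

/-- The Berger metric with parameter `μ` of the Hopf field `H(x) = J x`, at the point `x` of the
unit sphere of `E`, on tangent vectors `X, Y` of the sphere at `x`: it is the round metric on the
orthogonal complement of `H`, `g_μ(H, H) = μ`, and `H` is `g_μ`-orthogonal to that complement. -/
noncomputable def gB (J : E → E) (μ : ℝ) (x X Y : E) : ℝ :=
  inner ℝ X Y + (μ - 1) * inner ℝ X (J x) * inner ℝ Y (J x)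

/-- `V` is a smooth vector field on the unit sphere `S` of `E` (the restriction to `S` of a smooth
map `E → E` which is tangent to `S` along `S`). -/
structure IsField (V : E → E) : Prop where
  smooth : ContDiff ℝ (⊤ : ℕ∞) V
  tangent : ∀ x : E, ‖x‖ = 1 → inner ℝ x (V x) = 0

/-- `V` is a smooth unit vector field for the Berger metric. -/
structure IsUnitField (J : E → E) (μ : ℝ) (V : E → E) : Prop extends IsField V where
  unit : ∀ x : E, ‖x‖ = 1 → gB J μ x (V x) (V x) = 1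

/-- `D` is a connection on the unit sphere `S` of `E`; `D V x X` is the covariant derivative of the
field `V` at `x ∈ S` in the direction of the tangent vector `X` of `S` at `x`. -/
structure IsConnection (D : (E → E) → E → E → E) : Prop where
  tangent : ∀ V, IsField V → ∀ x : E, ‖x‖ = 1 → ∀ X : E, inner ℝ x X = 0 →
    inner ℝ x (D V x X) = 0
  add_dir : ∀ V, IsField V → ∀ x : E, ‖x‖ = 1 → ∀ X Y : E, inner ℝ x X = 0 → inner ℝ x Y = 0 →
    D V x (X + Y) = D V x X + D V x Y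
  smul_dir : ∀ V, IsField V → ∀ x : E, ‖x‖ = 1 → ∀ (a : ℝ) (X : E), inner ℝ x X = 0 →
    D V x (a • X) = a • D V x X
  add_field : ∀ V W, IsField V → IsField W → ∀ x : E, ‖x‖ = 1 → ∀ X : E, inner ℝ x X = 0 →
    D (fun y => V y + W y) x X = D V x X + D W x X
  leibniz : ∀ (f : E → ℝ) (V : E → E), ContDiff ℝ (⊤ : ℕ∞) f → IsField V → ∀ x : E, ‖x‖ = 1 →
    ∀ X : E, inner ℝ x X = 0 →
    D (fun y => f y • V y) x X = f x • D V x X + (fderiv ℝ f x X) • V x

/-- `D` is the Levi-Civita connection of the Berger metric on the unit sphere of `E`. -/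
structure IsLeviCivita (J : E → E) (μ : ℝ) (D : (E → E) → E → E → E) : Prop extends
    IsConnection D where
  torsion_free : ∀ V W, IsField V → IsField W → ∀ x : E, ‖x‖ = 1 →
    D V x (W x) - D W x (V x) = fderiv ℝ V x (W x) - fderiv ℝ W x (V x)
  metric : ∀ V W, IsField V → IsField W → ∀ x : E, ‖x‖ = 1 → ∀ X : E, inner ℝ x X = 0 →
    fderiv ℝ (fun y => gB J μ y (V y) (W y)) x X
      = gB J μ x (D V x X) (W x) + gB J μ x (V x) (D W x X)

/-- `|∇_X V|²` at `x`, in the Berger metric. -/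
noncomputable def derSq (J : E → E) (μ : ℝ) (D : (E → E) → E → E → E) (V : E → E) (x X : E) : ℝ :=
  gB J μ x (D V x X) (D V x X)

/-- The squared norm `‖∇V‖²` at `x ∈ S³`, computed in the `g_μ`-orthonormal frame
`H/√μ, E₁, E₂`, where `H = J x`, `E₁ = J₁ x`, `E₂ = J₂ x`. -/
noncomputable def nablaSq (J K L : E → E) (μ : ℝ) (D : (E → E) → E → E → E) (V : E → E) (x : E) :
    ℝ :=
  derSq J μ D V x ((√μ)⁻¹ • J x) + derSq J μ D V x (K x) + derSq J μ D V x (L x)

end General

/-- Euclidean 4-space, identified with the quaternions by `(a, b, c, d) ↦ a + b i + c j + d k`. -/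
abbrev E4 : Type := EuclideanSpace ℝ (Fin 4)

/-- Multiplication by `i` from the left: the complex structure `J₀`. -/
noncomputable def J0 (x : E4) : E4 := !₂[-x 1, x 0, -x 3, x 2]

/-- Multiplication by `j` from the left: the complex structure `J₁`. -/
noncomputable def J1 (x : E4) : E4 := !₂[-x 2, x 3, x 0, -x 1]

/-- Multiplication by `k` from the left: the complex structure `J₂`. -/
noncomputable def J2 (x : E4) : E4 := !₂[-x 3, -x 2, x 1, x 0]

/-- The unit sphere `S³`. -/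
abbrev S3 : Set E4 := Metric.sphere (0 : E4) 1

/-- The surface measure of `S³`. -/
noncomputable def surf : Measure S3 := (volume : Measure E4).toSphere

/-- The Riemannian volume measure of `(S³, g_μ)`: `√μ` times the surface measure of `S³`. -/
noncomputable def volB (μ : ℝ) : Measure S3 := ENNReal.ofReal (√μ) • surf

/-- The total volume of `(S³, g_μ)`. -/
noncomputable def totalVol (μ : ℝ) : ℝ := (volB μ).real Set.univ

/-- `‖∇V‖²` on `(S³, g_μ)` -/
noncomputable def nabSq (μ : ℝ) (D : (E4 → E4) → E4 → E4 → E4) (V : E4 → E4) (x : S3) : ℝ :=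
  nablaSq J0 J1 J2 μ D V x

/-- The energy `E(V) = (3/2) vol(S³, g_μ) + (1/2) ∫ ‖∇V‖² dv_μ`. -/
noncomputable def energy (μ : ℝ) (D : (E4 → E4) → E4 → E4 → E4) (V : E4 → E4) : ℝ :=
  3 / 2 * totalVol μ + 1 / 2 * ∫ x, nabSq μ D V x ∂(volB μ)

/-- The field `a₁ E₁ + a₂ E₂`. -/
noncomputable def fieldX (a₁ a₂ : ℝ) (x : E4) : E4 := a₁ • J1 x + a₂ • J2 x

/-- The number `3/2 + μ + 2(1-μ)/μ`. -/
noncomputable def constX (μ : ℝ) : ℝ := 3 / 2 + μ + 2 * ((1 - μ) / μ)

/-! ### linear versions -/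

theorem J0_add (x y : E4) : J0 (x + y) = J0 x + J0 y := by
  ext i; fin_cases i <;> simp [J0] <;> ring
theorem J0_smul (a : ℝ) (x : E4) : J0 (a • x) = a • J0 x := by
  ext i; fin_cases i <;> simp [J0]
theorem J1_add (x y : E4) : J1 (x + y) = J1 x + J1 y := by
  ext i; fin_cases i <;> simp [J1] <;> ring
theorem J1_smul (a : ℝ) (x : E4) : J1 (a • x) = a • J1 x := by
  ext i; fin_cases i <;> simp [J1]
theorem J2_add (x y : E4) : J2 (x + y) = J2 x + J2 y := by
  ext i; fin_cases i <;> simp [J2] <;> ring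
theorem J2_smul (a : ℝ) (x : E4) : J2 (a • x) = a • J2 x := by
  ext i; fin_cases i <;> simp [J2]

noncomputable def J0L : E4 →L[ℝ] E4 := LinearMap.toContinuousLinearMap ⟨⟨J0, J0_add⟩, J0_smul⟩
noncomputable def J1L : E4 →L[ℝ] E4 := LinearMap.toContinuousLinearMap ⟨⟨J1, J1_add⟩, J1_smul⟩
noncomputable def J2L : E4 →L[ℝ] E4 := LinearMap.toContinuousLinearMap ⟨⟨J2, J2_add⟩, J2_smul⟩

/-! ### coordinates -/

lemma inner_eq (x y : E4) : inner ℝ x y = x 0 * y 0 + x 1 * y 1 + x 2 * y 2 + x 3 * y 3 := by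
  rw [PiLp.inner_apply, Fin.sum_univ_four]
  simp [mul_comm]

@[simp] lemma J0_apply (x : E4) : J0L x = !₂[-x 1, x 0, -x 3, x 2] := rfl
@[simp] lemma J1_apply (x : E4) : J1L x = !₂[-x 2, x 3, x 0, -x 1] := rfl
@[simp] lemma J2_apply (x : E4) : J2L x = !₂[-x 3, -x 2, x 1, x 0] := rfl

lemma norm_one {x : E4} (hx : ‖x‖ = 1) : x 0 ^ 2 + x 1 ^ 2 + x 2 ^ 2 + x 3 ^ 2 = 1 := by
  have h := real_inner_self_eq_norm_sq x
  rw [hx, inner_eq] at h
  linarith

/-- orthogonal projection to the tangent space -/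
noncomputable def pr (x y : E4) : E4 := y - (inner ℝ x y : ℝ) • x

/-- the Levi-Civita connection of the Berger metric -/
noncomputable def nab (μ : ℝ) (V : E4 → E4) (x X : E4) : E4 :=
  pr x (fderiv ℝ V x X) + (μ - 1) • ((inner ℝ X (J0L x) : ℝ) • pr x (J0L (V x))
    + (inner ℝ (V x) (J0L x) : ℝ) • pr x (J0L X))

lemma pr_add (x y z : E4) : pr x (y + z) = pr x y + pr x z := by
  unfold pr; rw [inner_add_right]; module

lemma pr_smul (x : E4) (a : ℝ) (y : E4) : pr x (a • y) = a • pr x y := by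
  unfold pr; rw [inner_smul_right]; module

lemma inner_pr {x : E4} (hx : ‖x‖ = 1) (y : E4) : inner ℝ x (pr x y) = 0 := by
  unfold pr
  rw [inner_sub_right, inner_smul_right, real_inner_self_eq_norm_sq, hx]
  ring

lemma inner_J0_self (x : E4) : inner ℝ x (J0L x) = 0 := by
  rw [inner_eq]; simp; ring

lemma inner_J0_skew (x y : E4) : inner ℝ (J0L x) y = - inner ℝ x (J0L y) := by
  rw [inner_eq, inner_eq]; simp; ring

lemma J0_J0 (x : E4) : J0L (J0L x) = -x := by
  ext i; fin_cases i <;> simp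

lemma isField_add {V W : E4 → E4} (hV : IsField V) (hW : IsField W) :
    IsField (fun y => V y + W y) :=
  ⟨hV.smooth.add hW.smooth, fun x hx => by
    rw [inner_add_right, hV.tangent x hx, hW.tangent x hx, add_zero]⟩

/-- derivative of the tangency condition in a tangent direction -/
lemma tangency {V : E4 → E4} (hV : IsField V) {x : E4} (hx : ‖x‖ = 1) {X : E4}
    (hX : inner ℝ x X = (0 : ℝ)) : inner ℝ X (V x) + inner ℝ x (fderiv ℝ V x X) = (0 : ℝ) := by
  -- differentiate `t ↦ ⟪c t, V (c t)⟫` along `c t = (x + t X)/‖x + t X‖`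
  have hdV : DifferentiableAt ℝ V x := hV.smooth.contDiffAt.differentiableAt (by simp)
  set F : E4 → ℝ := fun y => inner ℝ y (V y) with hF
  have hdF : HasFDerivAt F ((fderivInnerCLM ℝ (x, V x)).comp
      ((ContinuousLinearMap.id ℝ E4).prod (fderiv ℝ V x))) x :=
    (hasFDerivAt_id x).inner ℝ hdV.hasFDerivAt
  set c : ℝ → E4 := fun t => ‖x + t • X‖⁻¹ • (x + t • X) with hc
  have h1 : HasDerivAt (fun t : ℝ => x + t • X) X 0 := by
    simpa using ((hasDerivAt_id (0 : ℝ)).smul_const X).const_add x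
  have hx0 : x ≠ 0 := by
    intro h; rw [h, norm_zero] at hx; exact zero_ne_one hx
  have h2 : HasDerivAt (fun t : ℝ => ‖x + t • X‖) 0 0 := by
    have h3 : HasDerivAt (fun t : ℝ => ‖x + t • X‖ ^ 2) (2 * inner ℝ (x + (0 : ℝ) • X) X) 0 :=
      h1.norm_sq
    rw [zero_smul, add_zero, hX, mul_zero] at h3
    have h4 := h3.sqrt (by rw [zero_smul, add_zero, hx]; norm_num)
    have h5 : (fun t : ℝ => √(‖x + t • X‖ ^ 2)) = fun t => ‖x + t • X‖ := by
      ext t; exact Real.sqrt_sq (norm_nonneg _)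
    rw [h5] at h4
    simpa using h4
  have h6 : HasDerivAt c X 0 := by
    have h7 := (h2.inv (by rw [zero_smul, add_zero, hx]; norm_num)).smul h1
    refine h7.congr_deriv ?_
    simp [hx]
  have hc0 : c 0 = x := by simp [hc, hx]
  have h8 : HasDerivAt (fun t => F (c t)) (inner ℝ x (fderiv ℝ V x X) + inner ℝ X (V x)) 0 := by
    have h9 : HasFDerivAt F ((fderivInnerCLM ℝ (x, V x)).comp
      ((ContinuousLinearMap.id ℝ E4).prod (fderiv ℝ V x))) (c 0) := by rw [hc0]; exact hdF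
    have h10 := h9.comp_hasDerivAt (0 : ℝ) h6
    refine h10.congr_deriv ?_
    simp
  have h11 : (fun t => F (c t)) =ᶠ[nhds 0] fun _ => 0 := by
    have h12 : ContinuousAt (fun t : ℝ => ‖x + t • X‖) 0 := h2.continuousAt
    have h13 : ∀ᶠ t in nhds (0 : ℝ), ‖x + t • X‖ ≠ 0 := by
      apply h12.eventually_ne
      rw [zero_smul, add_zero, hx]; norm_num
    filter_upwards [h13] with t ht
    apply hV.tangent
    rw [hc, norm_smul, norm_inv, norm_norm, inv_mul_cancel₀ ht]
  have h14 := h8.unique ((hasDerivAt_const (0 : ℝ) (0 : ℝ)).congr_of_eventuallyEq h11)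
  linarith

theorem nab_isLeviCivita (μ : ℝ) : IsLeviCivita J0L μ (nab μ) where
  tangent V hV x hx X hX := by
    unfold nab
    rw [inner_add_right, inner_smul_right, inner_add_right, inner_smul_right, inner_smul_right,
      inner_pr hx, inner_pr hx, inner_pr hx]
    ring
  add_dir V hV x hx X Y hX hY := by
    unfold nab
    rw [map_add, map_add, pr_add, pr_add, inner_add_left]
    module
  smul_dir V hV x hx a X hX := by
    unfold nab
    rw [map_smul, map_smul, pr_smul, pr_smul, inner_smul_left]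
    simp only [conj_trivial]
    module
  add_field V W hV hW x hx X hX := by
    have hdV : DifferentiableAt ℝ V x := hV.smooth.contDiffAt.differentiableAt (by simp)
    have hdW : DifferentiableAt ℝ W x := hW.smooth.contDiffAt.differentiableAt (by simp)
    unfold nab
    rw [fderiv_fun_add hdV hdW, add_apply, pr_add, map_add, pr_add,
      inner_add_left]
    module
  leibniz f V hf hV x hx X hX := by
    have hdV : DifferentiableAt ℝ V x := hV.smooth.contDiffAt.differentiableAt (by simp)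
    have hdf : DifferentiableAt ℝ f x := hf.contDiffAt.differentiableAt (by simp)
    unfold nab
    have h1 : pr x (V x) = V x := by
      unfold pr
      rw [hV.tangent x hx, zero_smul, sub_zero]
    rw [fderiv_fun_smul hdf hdV]
    simp only [add_apply, smul_apply,
      ContinuousLinearMap.smulRight_apply, map_smul, pr_add, pr_smul, inner_smul_left,
      conj_trivial]
    rw [h1]
    module
  torsion_free V W hV hW x hx := by
    have h1 := tangency hV hx (hW.tangent x hx)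
    have h2 := tangency hW hx (hV.tangent x hx)
    rw [real_inner_comm] at h2
    have h3 : inner ℝ x (fderiv ℝ V x (W x)) = (inner ℝ x (fderiv ℝ W x (V x)) : ℝ) := by
      linarith
    unfold nab
    have h4 : pr x (fderiv ℝ V x (W x)) - pr x (fderiv ℝ W x (V x))
        = fderiv ℝ V x (W x) - fderiv ℝ W x (V x) := by
      unfold pr
      rw [h3]
      module
    rw [← h4]
    module
  metric V W hV hW x hx X hX := by
    have hdV : HasFDerivAt V (fderiv ℝ V x) x :=
      (hV.smooth.contDiffAt.differentiableAt (by simp)).hasFDerivAt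
    have hdW : HasFDerivAt W (fderiv ℝ W x) x :=
      (hW.smooth.contDiffAt.differentiableAt (by simp)).hasFDerivAt
    have hJ : HasFDerivAt (fun y : E4 => J0L y) J0L x := J0L.hasFDerivAt
    have h1 := hdV.inner ℝ hdW
    have h2 := hdV.inner ℝ hJ
    have h3 := hdW.inner ℝ hJ
    have h4 := h1.add ((h2.const_mul (μ - 1)).mul h3)
    have h5 : HasFDerivAt (fun y => gB J0L μ y (V y) (W y)) _ x := h4
    rw [h5.fderiv]
    have t1 := hV.tangent x hx
    have t2 := hW.tangent x hx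
    have hJx := inner_J0_self x
    simp only [add_apply, smul_apply,
      ContinuousLinearMap.comp_apply, ContinuousLinearMap.prod_apply, fderivInnerCLM_apply,
      smul_eq_mul, gB, nab, pr, inner_add_left, inner_add_right, inner_sub_left, inner_sub_right,
      inner_smul_left, inner_smul_right, conj_trivial]
    have t1' : inner ℝ (V x) x = (0 : ℝ) := by rw [real_inner_comm]; exact t1
    have t2' : inner ℝ (W x) x = (0 : ℝ) := by rw [real_inner_comm]; exact t2
    have a1 : inner ℝ (J0L (V x)) (J0L x) = (0 : ℝ) := by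
      rw [inner_J0_skew, J0_J0, inner_neg_right, t1']; ring
    have a2 : inner ℝ (J0L (W x)) (J0L x) = (0 : ℝ) := by
      rw [inner_J0_skew, J0_J0, inner_neg_right, t2']; ring
    have hX' : inner ℝ X x = (0 : ℝ) := by rw [real_inner_comm]; exact hX
    have a3 : inner ℝ (J0L X) (J0L x) = (0 : ℝ) := by
      rw [inner_J0_skew, J0_J0, inner_neg_right, hX']; ring
    have a4 : inner ℝ (J0L (V x)) (W x) = - (inner ℝ (V x) (J0L (W x)) : ℝ) := inner_J0_skew _ _
    have a5 : inner ℝ (J0L X) (W x) = (inner ℝ (W x) (J0L X) : ℝ) := real_inner_comm _ _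
    rw [a1, a2, a3, a4, a5, hJx, t1', t2]
    ring

/-! ### the competitor -/

/-- multiplication by `i` from the right -/
noncomputable def Rt : E4 →L[ℝ] E4 := LinearMap.toContinuousLinearMap
  { toFun := fun x => !₂[-x 1, x 0, x 3, -x 2]
    map_add' := fun x y => by ext i; fin_cases i <;> simp <;> ring
    map_smul' := fun a x => by ext i; fin_cases i <;> simp }

@[simp] lemma Rt_apply (x : E4) : Rt x = !₂[-x 1, x 0, x 3, -x 2] := rfl

/-- components of the Hopf map -/
noncomputable def v0 (x : E4) : ℝ := x 0 ^ 2 + x 1 ^ 2 - x 2 ^ 2 - x 3 ^ 2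
noncomputable def v1 (x : E4) : ℝ := 2 * (x 1 * x 2 + x 0 * x 3)
noncomputable def v2 (x : E4) : ℝ := 2 * (x 1 * x 3 - x 0 * x 2)

lemma v0_eq (x : E4) : inner ℝ (Rt x) (J0L x) = v0 x := by
  rw [inner_eq]; simp [v0]; ring

lemma v_sq {x : E4} (hx : ‖x‖ = 1) : v0 x ^ 2 + v1 x ^ 2 + v2 x ^ 2 = 1 := by
  have h := norm_one hx
  have h2 : v0 x ^ 2 + v1 x ^ 2 + v2 x ^ 2 = (x 0 ^ 2 + x 1 ^ 2 + x 2 ^ 2 + x 3 ^ 2) ^ 2 := by
    unfold v0 v1 v2; ring
  rw [h2, h]; ring

/-- the competitor: `x i - (1 - 1/s) v₀ (i x)` with `s = √μ` -/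
noncomputable def V (s : ℝ) (x : E4) : E4 := Rt x - ((1 - s⁻¹) * inner ℝ (Rt x) (J0L x)) • J0L x

lemma V_isField (s : ℝ) : IsField (V s) where
  smooth := by
    have hR : ContDiff ℝ (⊤ : ℕ∞) (fun y : E4 => Rt y) := Rt.contDiff
    have hJ : ContDiff ℝ (⊤ : ℕ∞) (fun y : E4 => J0L y) := J0L.contDiff
    exact hR.sub ((contDiff_const.mul (hR.inner ℝ hJ)).smul hJ)
  tangent x hx := by
    unfold V
    rw [inner_sub_right, inner_smul_right, inner_J0_self, inner_eq]
    simp; ring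

lemma V_unit {s : ℝ} (hs : 0 < s) : IsUnitField J0L (s ^ 2) (V s) where
  toIsField := V_isField s
  unit x hx := by
    have h := norm_one hx
    have h1 : inner ℝ (Rt x) (Rt x) = (1 : ℝ) := by rw [inner_eq]; simp; linarith
    have h2 : inner ℝ (J0L x) (J0L x) = (1 : ℝ) := by rw [inner_eq]; simp; linarith
    have h3 : inner ℝ (Rt x) (J0L x) = v0 x := v0_eq x
    have h4 : inner ℝ (J0L x) (Rt x) = v0 x := by rw [real_inner_comm]; exact h3
    unfold gB V
    simp only [inner_sub_left, inner_sub_right, inner_smul_left, inner_smul_right, conj_trivial]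
    rw [h1, h2, h4, h3]
    field_simp
    ring

lemma fderiv_V (s : ℝ) (x X : E4) : fderiv ℝ (V s) x X = Rt X
    - (((1 - s⁻¹) * inner ℝ (Rt x) (J0L x)) • J0L X
      + ((1 - s⁻¹) * (inner ℝ (Rt x) (J0L X) + inner ℝ (Rt X) (J0L x))) • J0L x) := by
  have hR : HasFDerivAt (fun y : E4 => Rt y) Rt x := Rt.hasFDerivAt
  have hJ : HasFDerivAt (fun y : E4 => J0L y) J0L x := J0L.hasFDerivAt
  have h1 := ((hR.inner ℝ hJ).const_mul (1 - s⁻¹)).smul hJ
  have h2 : HasFDerivAt (V s) _ x := hR.sub h1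
  rw [h2.fderiv]
  simp only [sub_apply, add_apply,
    smul_apply, ContinuousLinearMap.smulRight_apply,
    ContinuousLinearMap.comp_apply, ContinuousLinearMap.prod_apply, fderivInnerCLM_apply,
    smul_eq_mul]


/-- vectors with given components in the frame -/
noncomputable def fr (s : ℝ) (x : E4) (a b c : ℝ) : E4 := (a * s⁻¹) • J0L x + b • J1L x + c • J2L x

lemma gB_fr {s : ℝ} (hs : 0 < s) {x : E4} (hx : ‖x‖ = 1) (a b c : ℝ) :
    gB J0L (s ^ 2) x (fr s x a b c) (fr s x a b c) = a ^ 2 + b ^ 2 + c ^ 2 := by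
  have h := norm_one hx
  have h00 : inner ℝ (J0L x) (J0L x) = (1 : ℝ) := by rw [inner_eq]; simp; linarith
  have h11 : inner ℝ (J1L x) (J1L x) = (1 : ℝ) := by rw [inner_eq]; simp; linarith
  have h22 : inner ℝ (J2L x) (J2L x) = (1 : ℝ) := by rw [inner_eq]; simp; linarith
  have h01 : inner ℝ (J0L x) (J1L x) = (0 : ℝ) := by rw [inner_eq]; simp; ring
  have h10 : inner ℝ (J1L x) (J0L x) = (0 : ℝ) := by rw [inner_eq]; simp; ring
  have h02 : inner ℝ (J0L x) (J2L x) = (0 : ℝ) := by rw [inner_eq]; simp; ring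
  have h20 : inner ℝ (J2L x) (J0L x) = (0 : ℝ) := by rw [inner_eq]; simp; ring
  have h12 : inner ℝ (J1L x) (J2L x) = (0 : ℝ) := by rw [inner_eq]; simp; ring
  have h21 : inner ℝ (J2L x) (J1L x) = (0 : ℝ) := by rw [inner_eq]; simp; ring
  unfold gB fr
  simp only [inner_add_left, inner_add_right, inner_smul_left, inner_smul_right, conj_trivial]
  rw [h00, h11, h22, h01, h10, h02, h20, h12, h21]
  field_simp
  ring

lemma J0_J1 (x : E4) : J0L (J1L x) = J2L x := by ext i; fin_cases i <;> simp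
lemma J0_J2 (x : E4) : J0L (J2L x) = -J1L x := by ext i; fin_cases i <;> simp

lemma Rt_J0 {x : E4} (hx : ‖x‖ = 1) : Rt (J0L x) = v1 x • J2L x - v2 x • J1L x - v0 x • x := by
  have h := norm_one hx
  ext i
  fin_cases i <;> simp [v0, v1, v2]
  · linear_combination (x 0) * h
  · linear_combination (x 1) * h
  · linear_combination (-x 2) * h
  · linear_combination (-x 3) * h

lemma Rt_J1 {x : E4} (hx : ‖x‖ = 1) : Rt (J1L x) = v2 x • J0L x - v0 x • J2L x - v1 x • x := by
  have h := norm_one hx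
  ext i
  fin_cases i <;> simp [v0, v1, v2]
  · linear_combination (x 3) * h
  · linear_combination (x 2) * h
  · linear_combination (x 1) * h
  · linear_combination (x 0) * h

lemma Rt_J2 {x : E4} (hx : ‖x‖ = 1) : Rt (J2L x) = v0 x • J1L x - v1 x • J0L x - v2 x • x := by
  have h := norm_one hx
  ext i
  fin_cases i <;> simp [v0, v1, v2]
  · linear_combination (-x 2) * h
  · linear_combination (x 3) * h
  · linear_combination (-x 0) * h
  · linear_combination (x 1) * h

lemma pr_self {x : E4} (hx : ‖x‖ = 1) : pr x x = 0 := by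
  unfold pr
  rw [real_inner_self_eq_norm_sq, hx]
  simp

lemma pr_J0 (x : E4) : pr x (J0L x) = J0L x := by
  unfold pr
  rw [inner_J0_self, zero_smul, sub_zero]

lemma pr_J1 (x : E4) : pr x (J1L x) = J1L x := by
  unfold pr
  have : inner ℝ x (J1L x) = (0 : ℝ) := by rw [inner_eq]; simp; ring
  rw [this, zero_smul, sub_zero]

lemma pr_J2 (x : E4) : pr x (J2L x) = J2L x := by
  unfold pr
  have : inner ℝ x (J2L x) = (0 : ℝ) := by rw [inner_eq]; simp; ring
  rw [this, zero_smul, sub_zero]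

lemma pr_neg (x y : E4) : pr x (-y) = -pr x y := by
  rw [← neg_one_smul ℝ y, pr_smul, neg_one_smul]

lemma pr_sub (x y z : E4) : pr x (y - z) = pr x y - pr x z := by
  rw [sub_eq_add_neg, pr_add, pr_neg, sub_eq_add_neg]

lemma inner_V_J0 (s : ℝ) {x : E4} (hx : ‖x‖ = 1) : inner ℝ (V s x) (J0L x) = s⁻¹ * v0 x := by
  have h := norm_one hx
  have h2 : inner ℝ (J0L x) (J0L x) = (1 : ℝ) := by rw [inner_eq]; simp; linarith
  unfold V
  rw [inner_sub_left, inner_smul_left, h2, v0_eq]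
  simp only [conj_trivial]
  ring

lemma nab_e1 {s : ℝ} (hs : 0 < s) {x : E4} (hx : ‖x‖ = 1) :
    nab (s ^ 2) (V s) x (J1L x) = fr s x ((2 - s) * v2 x) 0 (-((2 - s) * v0 x)) := by
  have hs' := hs.ne'
  unfold nab
  rw [fderiv_V]
  have e1 : inner ℝ (Rt x) (J0L (J1L x)) + inner ℝ (Rt (J1L x)) (J0L x) = (2 * v2 x : ℝ) := by
    rw [inner_eq, inner_eq]; simp [v2]; ring
  have e2 : inner ℝ (J1L x) (J0L x) = (0 : ℝ) := by rw [inner_eq]; simp; ring
  rw [e1, e2, inner_V_J0 s hx, v0_eq, J0_J1, Rt_J1 hx, zero_smul, zero_add]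
  simp only [pr_add, pr_sub, pr_smul, pr_self hx, pr_J0, pr_J2, smul_zero, sub_zero]
  unfold fr
  match_scalars <;> field_simp <;> ring

lemma nab_e2 {s : ℝ} (hs : 0 < s) {x : E4} (hx : ‖x‖ = 1) :
    nab (s ^ 2) (V s) x (J2L x) = fr s x (-((2 - s) * v1 x)) ((2 - s) * v0 x) 0 := by
  have hs' := hs.ne'
  unfold nab
  rw [fderiv_V]
  have e1 : inner ℝ (Rt x) (J0L (J2L x)) + inner ℝ (Rt (J2L x)) (J0L x) = (-(2 * v1 x) : ℝ) := by
    rw [inner_eq, inner_eq]; simp [v1]; ring
  have e2 : inner ℝ (J2L x) (J0L x) = (0 : ℝ) := by rw [inner_eq]; simp; ring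
  rw [e1, e2, inner_V_J0 s hx, v0_eq, J0_J2, Rt_J2 hx, zero_smul, zero_add]
  simp only [pr_add, pr_sub, pr_smul, pr_neg, pr_self hx, pr_J0, pr_J1, smul_zero, sub_zero]
  unfold fr
  match_scalars <;> field_simp <;> ring

lemma nab_e0 {s : ℝ} (hs : 0 < s) {x : E4} (hx : ‖x‖ = 1) :
    nab (s ^ 2) (V s) x (s⁻¹ • J0L x) = fr s x 0 (-(s * v2 x)) (s * v1 x) := by
  have hs' := hs.ne'
  have h := norm_one hx
  have h2 : inner ℝ (J0L x) (J0L x) = (1 : ℝ) := by rw [inner_eq]; simp; linarith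
  unfold nab
  rw [map_smul, fderiv_V]
  have e1 : inner ℝ (Rt x) (J0L (J0L x)) + inner ℝ (Rt (J0L x)) (J0L x) = (0 : ℝ) := by
    rw [inner_eq, inner_eq]; simp; ring
  have e2 : inner ℝ (s⁻¹ • J0L x) (J0L x) = s⁻¹ := by
    rw [inner_smul_left, h2]; simp
  have e3 : J0L (V s x) = v1 x • J2L x - v2 x • J1L x - v0 x • x
      + ((1 - s⁻¹) * v0 x) • x := by
    have h3 : J0L (Rt x) = Rt (J0L x) := by ext i; fin_cases i <;> simp
    unfold V
    rw [map_sub, map_smul, J0_J0, h3, Rt_J0 hx, v0_eq]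
    module
  rw [e1, e2, e3, map_smul, J0_J0, Rt_J0 hx, v0_eq]
  simp only [pr_add, pr_sub, pr_smul, pr_neg, pr_self hx, pr_J1, pr_J2, smul_zero, sub_zero,
    mul_zero, zero_smul, add_zero, neg_zero, smul_neg]
  unfold fr
  match_scalars <;> field_simp <;> ring

lemma nablaSq_V {s : ℝ} (hs : 0 < s) {x : E4} (hx : ‖x‖ = 1) :
    nablaSq J0L J1L J2L (s ^ 2) (nab (s ^ 2)) (V s) x
      = (2 - s) ^ 2 * (1 + v0 x ^ 2) + s ^ 2 * (1 - v0 x ^ 2) := by
  unfold nablaSq derSq
  rw [Real.sqrt_sq hs.le, nab_e0 hs hx, nab_e1 hs hx, nab_e2 hs hx, gB_fr hs hx, gB_fr hs hx,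
    gB_fr hs hx]
  have h := v_sq hx
  linear_combination ((2 - s) ^ 2 + s ^ 2) * h

lemma norm_coe (x : Metric.sphere (0 : E4) 1) : ‖(x : E4)‖ = 1 := by
  simp

lemma W_isUnit {s : ℝ} (hs : 0 < s) (a₁ a₂ : ℝ) (ha : a₁ ^ 2 + a₂ ^ 2 = 1) :
    IsUnitField J0L (s ^ 2) (fun x => a₁ • J1L x + a₂ • J2L x) where
  smooth := by
    have h1 : ContDiff ℝ (⊤ : ℕ∞) (fun y : E4 => J1L y) := J1L.contDiff
    have h2 : ContDiff ℝ (⊤ : ℕ∞) (fun y : E4 => J2L y) := J2L.contDiff
    exact (h1.const_smul a₁).add (h2.const_smul a₂)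
  tangent x hx := by
    rw [inner_add_right, inner_smul_right, inner_smul_right, inner_eq, inner_eq]
    simp; ring
  unit x hx := by
    have h := gB_fr hs hx 0 a₁ a₂
    have h2 : fr s x 0 a₁ a₂ = a₁ • J1L x + a₂ • J2L x := by unfold fr; module
    rw [h2] at h
    rw [h]
    linarith

lemma nablaSq_W {s : ℝ} (hs : 0 < s) (a₁ a₂ : ℝ) (ha : a₁ ^ 2 + a₂ ^ 2 = 1) {x : E4}
    (hx : ‖x‖ = 1) : nablaSq J0L J1L J2L (s ^ 2) (nab (s ^ 2)) (fun x => a₁ • J1L x + a₂ • J2L x) x
      = 2 * s ^ 2 - 4 + 4 / s ^ 2 := by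
  have hs' := hs.ne'
  have h := norm_one hx
  have hf : ∀ X : E4, fderiv ℝ (fun x => a₁ • J1L x + a₂ • J2L x) x X = a₁ • J1L X + a₂ • J2L X := by
    intro X
    have h1 : HasFDerivAt (fun y : E4 => J1L y) J1L x := J1L.hasFDerivAt
    have h2 : HasFDerivAt (fun y : E4 => J2L y) J2L x := J2L.hasFDerivAt
    have h3 : HasFDerivAt (fun y : E4 => a₁ • J1L y + a₂ • J2L y) (a₁ • J1L + a₂ • J2L) x :=
      (h1.const_smul a₁).add (h2.const_smul a₂)
    rw [h3.fderiv]
    rfl
  have i00 : inner ℝ (J0L x) (J0L x) = (1 : ℝ) := by rw [inner_eq]; simp; linarith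
  have i10 : inner ℝ (J1L x) (J0L x) = (0 : ℝ) := by rw [inner_eq]; simp; ring
  have i20 : inner ℝ (J2L x) (J0L x) = (0 : ℝ) := by rw [inner_eq]; simp; ring
  have m10 : J1L (J0L x) = -J2L x := by ext i; fin_cases i <;> simp
  have m20 : J2L (J0L x) = J1L x := by ext i; fin_cases i <;> simp
  have m11 : J1L (J1L x) = -x := by ext i; fin_cases i <;> simp
  have m21 : J2L (J1L x) = -J0L x := by ext i; fin_cases i <;> simp
  have m12 : J1L (J2L x) = J0L x := by ext i; fin_cases i <;> simp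
  have m22 : J2L (J2L x) = -x := by ext i; fin_cases i <;> simp
  have e0 : nab (s ^ 2) (fun x => a₁ • J1L x + a₂ • J2L x) x (s⁻¹ • J0L x)
      = fr s x 0 (-((s - 2 / s) * a₂)) ((s - 2 / s) * a₁) := by
    unfold nab
    rw [hf]
    simp only [inner_add_left, inner_smul_left, conj_trivial, i00, i10, i20, map_smul, map_add,
      m10, m20, J0_J0, J0_J1, J0_J2, pr_add, pr_smul, pr_neg, pr_J1, pr_J2, pr_self hx]
    unfold fr
    match_scalars <;> field_simp <;> ring
  have e1 : nab (s ^ 2) (fun x => a₁ • J1L x + a₂ • J2L x) x (J1L x) = fr s x (-(s * a₂)) 0 0 := by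
    unfold nab
    rw [hf]
    simp only [inner_add_left, inner_smul_left, conj_trivial, i10, i20,
      m11, m21, J0_J1, pr_add, pr_smul, pr_neg, pr_J0, pr_self hx]
    unfold fr
    match_scalars <;> field_simp <;> ring
  have e2 : nab (s ^ 2) (fun x => a₁ • J1L x + a₂ • J2L x) x (J2L x) = fr s x (s * a₁) 0 0 := by
    unfold nab
    rw [hf]
    simp only [inner_add_left, inner_smul_left, conj_trivial, i10, i20,
      m12, m22, J0_J2, pr_add, pr_smul, pr_neg, pr_J0, pr_self hx]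
    unfold fr
    match_scalars <;> field_simp <;> ring
  unfold nablaSq derSq
  rw [Real.sqrt_sq hs.le, e0, e1, e2, gB_fr hs hx, gB_fr hs hx, gB_fr hs hx]
  have h5 : (s - 2 / s) ^ 2 = s ^ 2 - 4 + 4 / s ^ 2 := by field_simp; ring
  linear_combination (s ^ 2 + (s - 2 / s) ^ 2) * ha + h5

instance : IsFiniteMeasure surf := by
  unfold surf
  infer_instance

instance (μ : ℝ) : IsFiniteMeasure (volB μ) := by
  unfold volB
  exact Measure.smul_finite _ ENNReal.ofReal_ne_top

lemma totalVol_pos {μ : ℝ} (hμ : 0 < μ) : 0 < totalVol μ := by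
  unfold totalVol
  rw [measureReal_def]
  apply ENNReal.toReal_pos
  · unfold volB surf
    rw [Measure.smul_apply, smul_eq_mul, mul_ne_zero_iff]
    constructor
    · rw [ENNReal.ofReal_ne_zero_iff]
      exact Real.sqrt_pos.2 hμ
    · rw [Measure.toSphere_apply_univ, mul_ne_zero_iff]
      constructor
      · simp
      · exact (Metric.measure_ball_pos volume (0 : E4) one_pos).ne'
  · exact measure_ne_top (volB μ) Set.univ

lemma nabSq_V {s : ℝ} (hs : 0 < s) : nabSq (s ^ 2) (nab (s ^ 2)) (V s)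
      = fun x : S3 => (2 - s) ^ 2 * (1 + v0 x ^ 2) + s ^ 2 * (1 - v0 x ^ 2) :=
  funext fun x : S3 => nablaSq_V hs (norm_coe x)

lemma integrable_V (s : ℝ) : Integrable (fun x : S3 =>
    (2 - s) ^ 2 * (1 + v0 x ^ 2) + s ^ 2 * (1 - v0 x ^ 2)) (volB (s ^ 2)) := by
  have hc : Continuous fun x : S3 =>
      (2 - s) ^ 2 * (1 + v0 x ^ 2) + s ^ 2 * (1 - v0 x ^ 2) := by
    unfold v0
    fun_prop
  exact hc.integrable_of_hasCompactSupport (HasCompactSupport.of_compactSpace _)

/-- **Main theorem.** For every `μ > (3+√5)/2` there is a smooth unit vector field on the Berger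
sphere `(S³, g_μ)` whose energy is smaller than the energy `(3/2 + μ + 2(1-μ)/μ) vol(S³, g_μ)` of the
fields `a₁ E₁ + a₂ E₂`. -/
theorem result (μ : ℝ) (hμ : (3 + √5) / 2 < μ) :
    ∃ D : (E4 → E4) → E4 → E4 → E4, IsLeviCivita J0 μ D ∧
      (∀ a₁ a₂ : ℝ, a₁ ^ 2 + a₂ ^ 2 = 1 → IsUnitField J0 μ (fieldX a₁ a₂) ∧
        energy μ D (fieldX a₁ a₂) = constX μ * totalVol μ) ∧
      ∃ V : E4 → E4, IsUnitField J0 μ V ∧ Integrable (nabSq μ D V) (volB μ) ∧
        energy μ D V < constX μ * totalVol μ := by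
  have h5 : 0 < √5 := Real.sqrt_pos.2 (by norm_num)
  have h55 : √5 * √5 = 5 := Real.mul_self_sqrt (by norm_num)
  have hμ0 : 0 < μ := by linarith
  obtain ⟨s, hs, rfl⟩ : ∃ s : ℝ, 0 < s ∧ s ^ 2 = μ := ⟨√μ, Real.sqrt_pos.2 hμ0, Real.sq_sqrt hμ0.le⟩
  have hvol := totalVol_pos hμ0
  refine ⟨nab (s ^ 2), nab_isLeviCivita _, ?_, V s, V_unit hs, ?_, ?_⟩
  · intro a₁ a₂ ha
    refine ⟨W_isUnit hs a₁ a₂ ha, ?_⟩
    unfold energy
    have h1 : ∀ x : S3, nabSq (s ^ 2) (nab (s ^ 2)) (fieldX a₁ a₂) x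
          = 2 * s ^ 2 - 4 + 4 / s ^ 2 := fun x => nablaSq_W hs a₁ a₂ ha (norm_coe x)
    simp only [h1]
    rw [integral_const, smul_eq_mul]
    change 3 / 2 * totalVol (s ^ 2) + 1 / 2 * (totalVol (s ^ 2) * _) = _
    unfold constX
    field_simp
    ring
  · rw [nabSq_V hs]
    exact integrable_V s
  · have hs1 : 1 < s := by
      have : (1 : ℝ) < s ^ 2 := by nlinarith
      nlinarith
    have h1 : ∫ x : S3, nabSq (s ^ 2) (nab (s ^ 2)) (V s) x ∂(volB (s ^ 2))
        ≤ ∫ _ : S3, (2 * s ^ 2 - 4 * s + 4) ∂(volB (s ^ 2)) := by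
      rw [nabSq_V hs]
      apply integral_mono (integrable_V s) (integrable_const _)
      intro x
      show (2 - s) ^ 2 * (1 + v0 x ^ 2) + s ^ 2 * (1 - v0 x ^ 2) ≤ 2 * s ^ 2 - 4 * s + 4
      nlinarith [mul_nonneg (sq_nonneg (v0 x)) (sub_nonneg.2 hs1.le)]
    rw [integral_const, smul_eq_mul] at h1
    change _ ≤ totalVol (s ^ 2) * _ at h1
    have hgold : (1 + √5) / 2 < s := by
      have h6 : ((1 + √5) / 2) ^ 2 < s ^ 2 := by nlinarith
      exact lt_of_pow_lt_pow_left₀ 2 hs.le h6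
    have h7 : 2 * s ^ 2 - 4 * s + 4 < 2 * s ^ 2 - 4 + 4 / s ^ 2 := by
      have h8 : 8 - 4 * s < 4 / s ^ 2 := by
        rw [lt_div_iff₀ (by positivity)]
        -- `(s - 1) (s² - s - 1) > 0`
        have h9 : 0 < s ^ 2 - s - 1 := by nlinarith
        nlinarith [mul_pos (sub_pos.2 hs1) h9]
      linarith
    unfold energy
    have h10 : constX (s ^ 2) = 3 / 2 + 1 / 2 * (2 * s ^ 2 - 4 + 4 / s ^ 2) := by
      unfold constX
      field_simp
      ring
    rw [h10]
    nlinarith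

end Pool.Agent.Results.MP_627409_gt.NotMinimising
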